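import Pool.Agent.H579.B.ErrA

set_option autoImplicit false

/-!
The replacement of the primes by the sieve models in the ternary equation, moduli up to the power `κ < 2 / 3` of
the length. Adapted from `Y949/GJ/Err7`.
-/

namespace Pool.Agent.H579.Bk

open Finset
open Pool.Agent.Y883.GJ
open Pool.Agent.Y949.GJ
open Pool.Agent.H807R2.Dav (ee)
open Pool.Agent.H373R2.T7 (lamz Vz pz)
open Pool.Agent.Y883.T3 (lsh)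
open Pool.Agent.Y883.T6 (S3 zP)

/-- the von Mangoldt function on the major arcs, moduli up to a power less than `lam` -/
def InpL (lam : ℝ) : Prop := ∀ (A C : ℕ) (κ : ℝ), κ < lam → ∃ C₃ N₀ : ℕ, ∀ N : ℕ, N₀ ≤ N →
  ∀ (q : ℕ) [NeZero q], (q : ℝ) ≤ (N : ℝ) ^ κ →
    ∃ B : Finset (DirichletCharacter ℂ q), 1 ∈ B ∧ (B.card : ℝ) ≤ Real.log N ^ C₃ ∧
      ∀ η : ℝ, |η| ≤ Real.log N ^ C / N → ∀ S : Finset (DirichletCharacter ℂ q), Disjoint S B →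
        ∑ χ ∈ S, ‖cs q N LA η χ‖ ^ 2 ≤ (N : ℝ) ^ 2 / Real.log N ^ A

/-- the sieve model on the major arcs -/
def InpH (lam : ℝ) : Prop := ∀ (A C : ℕ) (κ : ℝ), κ < lam → ∃ N₀ : ℕ, ∀ N : ℕ, N₀ ≤ N →
  ∀ (q : ℕ) [NeZero q], (q : ℝ) ≤ (N : ℝ) ^ κ → ∀ z r : ℕ,
  ((((z + 1) ^ r) ^ 100 : ℕ) : ℝ) ≤ N → (Vz z)⁻¹ ≤ Real.log N →
  ∀ η : ℝ, |η| ≤ Real.log N ^ C / N → ∀ S : Finset (DirichletCharacter ℂ q), 1 ∉ S →
    ∑ χ ∈ S, ‖cs q N (LS z r) η χ‖ ^ 2 ≤ (N : ℝ) ^ 2 / Real.log N ^ A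

/-- the difference on the minor arcs -/
def InpF (lam : ℝ) : Prop := ∀ (A : ℕ) (κ : ℝ), κ < lam → ∃ C N₀ : ℕ, ∀ N : ℕ, N₀ ≤ N →
  ∀ (q : ℕ) [NeZero q], (q : ℝ) ≤ (N : ℝ) ^ κ → ∀ z r : ℕ,
  ((((z + 1) ^ r) ^ 100 : ℕ) : ℝ) ≤ N → (Vz z)⁻¹ ≤ Real.log N →
  ∀ (k : ℕ) (h : ℤ) (β : ℝ), Real.log N ^ C ≤ k → (q : ℝ) * k * Real.log N ^ C ≤ N →
    IsCoprime h (k : ℤ) → |q * β - h / k| ≤ 1 / (k : ℝ) ^ 2 →
    ∑ χ : DirichletCharacter ℂ q, ‖cs q N (FF z r) β χ‖ ^ 2 ≤ (N : ℝ) ^ 2 / Real.log N ^ A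

/-- the primes may be replaced by the sieve models -/
def ErrK (lam : ℝ) : Prop := ∀ (A T B₀ : ℕ) (κ : ℝ), 0 < κ → κ < lam → ∃ B : ℕ, B₀ ≤ B ∧ ∃ N₀ : ℕ,
  ∀ N : ℕ, N₀ ≤ N → ∀ {c1 c2 c3 d : ℤ} {P1 P2 P3 : ℕ}, ParK κ N T c1 c2 c3 d P1 P2 P3 →
  |S3 c1 c2 c3 d P1 P2 P3 (fun n => ArithmeticFunction.vonMangoldt n) (fun n => ArithmeticFunction.vonMangoldt n)
      (fun n => ArithmeticFunction.vonMangoldt n) -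
    S3 c1 c2 c3 d P1 P2 P3 (fun n => lamz (zP B P1) n) (fun n => lamz (zP B P2) n)
      (fun n => lamz (zP B P3) n)| ≤
    (N : ℝ) ^ 2 / (c1.natAbs * c2.natAbs * c3.natAbs) / Real.log N ^ A

/-- the sizes -/
lemma sizeK {κ : ℝ} (hκ0 : 0 < κ) (hκ : κ ≤ 4 / 5) (P₀ : ℕ) {N : ℕ} (hN : 32 * (P₀ + 1) ^ 5 ≤ N)
    (hL : 24 ≤ Real.log N) {T : ℕ} {c1 c2 c3 d : ℤ} {P1 P2 P3 : ℕ} (h : ParK κ N T c1 c2 c3 d P1 P2 P3) :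
    P₀ ≤ P1 ∧ Real.log N ≤ 6 * Real.log P1 ∧ Real.log P1 ≤ Real.log N ∧
      ((c2.natAbs * c3.natAbs : ℕ) : ℝ) ≤ P1 := by
  have hP1 := h.pos1
  have h5 := h.five hκ0 hκ
  have h5' : N ≤ 32 * P1 ^ 5 := by exact_mod_cast h5
  have hN1 : 1 ≤ N := hP1.trans h.le1
  have hP1r : (1 : ℝ) ≤ P1 := by exact_mod_cast hP1
  refine ⟨?_, log_of_five hN1 hP1 h5 hL, Real.log_le_log (by linarith) (by exact_mod_cast h.le1), ?_⟩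
  · by_contra hc
    have h6 : P1 < P₀ + 1 := by omega
    have h7 : P1 ^ 5 < (P₀ + 1) ^ 5 := Nat.pow_lt_pow_left h6 (by norm_num)
    omega
  · refine h.q1.trans ?_
    calc (P1 : ℝ) ^ κ ≤ (P1 : ℝ) ^ (1 : ℝ) := Real.rpow_le_rpow_of_exponent_le hP1r (by linarith)
      _ = P1 := Real.rpow_one _

/-- the trivial bound in square mean with the sizes -/
lemma holdK (h6 : HoldStm) {κ : ℝ} {N T : ℕ} {c1 c2 c3 d : ℤ} {P1 P2 P3 : ℕ}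
    (h : ParK κ N T c1 c2 c3 d P1 P2 P3) (hq : ((c2.natAbs * c3.natAbs : ℕ) : ℝ) ≤ P1) {G1 G2 G3 : ℕ → ℂ}
    {K1 K2 K3 X : ℝ} (hK1 : 0 ≤ K1) (hK2 : 0 ≤ K2) (hK3 : 0 ≤ K3) (hX : 0 ≤ X)
    (g1 : ∑ n ∈ Icc 1 P1, ‖G1 n‖ ^ 2 ≤ P1 * K1) (g2 : ∑ n ∈ Icc 1 P2, ‖G2 n‖ ^ 2 ≤ P2 * K2)
    (g3 : ∑ n ∈ Icc 1 P3, ‖G3 n‖ ^ 2 ≤ P3 * K3) (hK : 2 * (K1 * K2 * K3) ≤ X ^ 2) :
    ‖SS3 c1 c2 c3 d P1 P2 P3 G1 G2 G3‖ ≤ (N : ℝ) ^ 2 / (c1.natAbs * c2.natAbs * c3.natAbs) * X := by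
  have h1 := h6 c1 c2 c3 d P1 P2 P3 G1 G2 G3 h.n1 h.n2 h.n3 h.g12 h.g13 h.g23
  have ha1 : (0 : ℝ) < c1.natAbs := by exact_mod_cast Int.natAbs_pos.2 h.n1
  have ha2 : (0 : ℝ) < c2.natAbs := by exact_mod_cast Int.natAbs_pos.2 h.n2
  have ha3 : (0 : ℝ) < c3.natAbs := by exact_mod_cast Int.natAbs_pos.2 h.n3
  have hPr : ∀ (c : ℤ) (P : ℕ), (0 : ℝ) < c.natAbs → c.natAbs * P ≤ N → (P : ℝ) ≤ N / c.natAbs := by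
    intro c P ha h
    rw [le_div_iff₀ ha, mul_comm]
    exact_mod_cast h
  have hP1 := hPr c1 P1 ha1 h.u1
  have hP2 := hPr c2 P2 ha2 h.u2
  have hP3 := hPr c3 P3 ha3 h.u3
  obtain ⟨a1, ea1⟩ : ∃ a1 : ℝ, a1 = (c1.natAbs : ℝ) := ⟨_, rfl⟩
  obtain ⟨a2, ea2⟩ : ∃ a2 : ℝ, a2 = (c2.natAbs : ℝ) := ⟨_, rfl⟩
  obtain ⟨a3, ea3⟩ : ∃ a3 : ℝ, a3 = (c3.natAbs : ℝ) := ⟨_, rfl⟩
  push_cast at hq
  rw [← ea1] at ha1 hP1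
  rw [← ea2] at ha2 hP2
  rw [← ea3] at ha3 hP3
  rw [← ea2, ← ea3] at hq h1
  rw [← ea1, ← ea2, ← ea3]
  have hP10 : (0 : ℝ) ≤ P1 := Nat.cast_nonneg _
  have hP20 : (0 : ℝ) ≤ P2 := Nat.cast_nonneg _
  have hP30 : (0 : ℝ) ≤ P3 := Nat.cast_nonneg _
  have hN0 : (0 : ℝ) ≤ N := Nat.cast_nonneg _
  have h2 : (P1 : ℝ) / (a2 * a3) + 1 ≤ 2 * (P1 / (a2 * a3)) := by
    have : 1 ≤ (P1 : ℝ) / (a2 * a3) := by
      rw [le_div_iff₀ (by positivity), one_mul]; exact hq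
    linarith
  have h3 : ‖SS3 c1 c2 c3 d P1 P2 P3 G1 G2 G3‖ ^ 2 ≤ ((N : ℝ) ^ 2 / (a1 * a2 * a3) * X) ^ 2 := by
    refine h1.trans ?_
    calc ((P1 : ℝ) / (a2 * a3) + 1) * (∑ n ∈ Icc 1 P1, ‖G1 n‖ ^ 2) * (∑ n ∈ Icc 1 P2, ‖G2 n‖ ^ 2) *
          (∑ n ∈ Icc 1 P3, ‖G3 n‖ ^ 2) ≤ (2 * (P1 / (a2 * a3))) * (P1 * K1) * (P2 * K2) * (P3 * K3) := by
          gcongr
      _ ≤ (2 * ((N / a1) / (a2 * a3))) * ((N / a1) * K1) * ((N / a2) * K2) * ((N / a3) * K3) := by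
          gcongr
      _ = ((N : ℝ) ^ 2 / (a1 * a2 * a3)) ^ 2 * (2 * (K1 * K2 * K3)) := by
          field_simp
      _ ≤ ((N : ℝ) ^ 2 / (a1 * a2 * a3)) ^ 2 * X ^ 2 := mul_le_mul_of_nonneg_left hK (by positivity)
      _ = ((N : ℝ) ^ 2 / (a1 * a2 * a3) * X) ^ 2 := by ring
  exact (pow_le_pow_iff_left₀ (norm_nonneg _) (by positivity) (by norm_num)).1 h3

theorem errK {lam : ℝ} (hlam : lam ≤ 4 / 5) (h1 : TernK) (h2 : InpL lam) (h3 : InpH lam) (h4 : InpF lam) (h5 : ModelStm) (h6 : HoldStm) :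
    ErrK lam := by
  intro A T B₀ κ hκ0 hκl
  obtain ⟨κ', hκ'⟩ : ∃ κ' : ℝ, κ' = (κ + lam) / 2 := ⟨_, rfl⟩
  have hκκ' : κ < κ' := by linarith
  have hκ'l : κ' < lam := by linarith
  obtain ⟨A1, h1⟩ := h1 (A + 2) T κ κ' hκ0 hκκ' (by linarith)
  obtain ⟨C1, NF, hF⟩ := h4 A1 κ' hκ'l
  obtain ⟨A2, h1⟩ := h1 C1
  obtain ⟨C3, NL, hLm⟩ := h2 (A2 + 4) (C1 + 1) κ' hκ'l
  obtain ⟨NH, hH⟩ := h3 (A2 + 4) (C1 + 1) κ' hκ'l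
  obtain ⟨U, N0, hT⟩ := h1 C3
  obtain ⟨V, hV⟩ : ∃ V : ℕ, V = 2 * A + 19 := ⟨_, rfl⟩
  obtain ⟨U', hU'⟩ : ∃ U' : ℕ, U' = U + A2 + 2 * V + 13 := ⟨_, rfl⟩
  obtain ⟨Bm, hM⟩ := h5 U'
  refine ⟨max B₀ Bm, le_max_left _ _, ?_⟩
  obtain ⟨B, hB⟩ : ∃ B : ℕ, B = max B₀ Bm := ⟨_, rfl⟩
  rw [← hB]
  have hBm : Bm ≤ B := by rw [hB]; exact le_max_right _ _
  obtain ⟨NM, hM⟩ := hM (B + 1)
  obtain ⟨Ne, hNe⟩ := ev_log 2048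
  obtain ⟨Nl, hNl⟩ := ev_log (2 * 6 ^ V + 6)
  obtain ⟨Ns, hNs⟩ := ev_log 24
  obtain ⟨P₀, hP₀⟩ : ∃ P₀ : ℕ, P₀ = NF + NL + NH + NM + Ne := ⟨_, rfl⟩
  refine ⟨N0 + Nl + Ns + 32 * (P₀ + 1) ^ 5, fun N hN c1 c2 c3 d P1 P2 P3 hp => ?_⟩
  have hNP : 32 * (P₀ + 1) ^ 5 ≤ N := by omega
  have hL24 : 24 ≤ Real.log N := hNs N (by omega)
  have hp' := hp.rot
  have hp'' := hp'.rot
  have hκ4 : κ ≤ 4 / 5 := by linarith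
  obtain ⟨p1, l1, m1, q1⟩ := sizeK hκ0 hκ4 P₀ hNP hL24 hp
  obtain ⟨p2, l2, m2, -⟩ := sizeK hκ0 hκ4 P₀ hNP hL24 hp'
  obtain ⟨p3, l3, m3, -⟩ := sizeK hκ0 hκ4 P₀ hNP hL24 hp''
  have hsc : ∀ P : ℕ, P₀ ≤ P → ∃ r : ℕ, ScK κ' A1 C1 A2 C3 U V P (zP B P) r := by
    intro P hP
    have hL := hNe P (by omega)
    obtain ⟨z1, z2⟩ := zP_bounds (P := P) hBm (by linarith)
    obtain ⟨r, hr1, hr2⟩ := hM P (by omega) (zP B P) z1 z2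
    exact ⟨r, scaleK hL (by omega) (by omega) (by omega) (fun q _ hq => hF P (by omega) q hq)
      (fun q _ hq => hLm P (by omega) q hq) (fun q _ hq => hH P (by omega) q hq) hr1 hr2⟩
  obtain ⟨r1, s1⟩ := hsc P1 p1
  obtain ⟨r2, s2⟩ := hsc P2 p2
  obtain ⟨r3, s3⟩ := hsc P3 p3
  obtain ⟨L, hLd⟩ : ∃ L, L = Real.log (N : ℝ) := ⟨_, rfl⟩
  have hLN := hNl N (by omega)
  rw [← hLd] at l1 l2 l3 m1 m2 m3 hLN ⊢
  have h3V : (1 : ℝ) ≤ 6 ^ V := one_le_pow₀ (by norm_num)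
  have hL8 : 8 ≤ L := by linarith
  have hL0 : 0 < L := by linarith
  have hL1 : 1 ≤ L := by linarith
  have ha1 : (0 : ℝ) < c1.natAbs := by exact_mod_cast Int.natAbs_pos.2 hp.n1
  have ha2 : (0 : ℝ) < c2.natAbs := by exact_mod_cast Int.natAbs_pos.2 hp.n2
  have ha3 : (0 : ℝ) < c3.natAbs := by exact_mod_cast Int.natAbs_pos.2 hp.n3
  obtain ⟨μ, hμ⟩ : ∃ μ : ℝ, μ = (N : ℝ) ^ 2 / (c1.natAbs * c2.natAbs * c3.natAbs) := ⟨_, rfl⟩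
  have hμ0 : 0 ≤ μ := by rw [hμ]; positivity
  -- the three terms with a difference of small exponential sums
  have t1 : ‖SS3 c1 c2 c3 d P1 P2 P3 (FF (zP B P1) r1) LA LA‖ ≤ μ / L ^ (A + 2) := by
    have := hT N (by omega) hp (FF (zP B P1) r1) LA LA s1.mF s1.sF s2.sL s3.sL s1.sup s1.ncF
    rw [hμ, hLd]
    exact this
  have t2 : ‖SS3 c1 c2 c3 d P1 P2 P3 (LS (zP B P1) r1) (FF (zP B P2) r2) LA‖ ≤ μ / L ^ (A + 2) := by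
    have := hT N (by omega) hp.swap (FF (zP B P2) r2) (LS (zP B P1) r1) LA s2.mF s2.sF s1.sS s3.sL s2.sup s2.ncF
    rw [SS3_swap, hμ, hLd, mul_comm (c1.natAbs : ℝ) (c2.natAbs : ℝ)]
    exact this
  have t3 : ‖SS3 c1 c2 c3 d P1 P2 P3 (LS (zP B P1) r1) (LS (zP B P2) r2) (FF (zP B P3) r3)‖ ≤
      μ / L ^ (A + 2) := by
    have := hT N (by omega) hp'' (FF (zP B P3) r3) (LS (zP B P1) r1) (LS (zP B P2) r2) s3.mF s3.sF s1.sS s2.sS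
      s3.sup s3.ncF
    rw [← SS3_rot c3 c1 c2 d P3 P1 P2, hμ, hLd,
      show (c1.natAbs : ℝ) * c2.natAbs * c3.natAbs = c3.natAbs * c1.natAbs * c2.natAbs by ring]
    exact this
  -- the three terms with the error of the model
  have hX0 : (0 : ℝ) ≤ 1 / L ^ (A + 2) := by positivity
  have kV : ∀ ℓ : ℝ, L ≤ 6 * ℓ → 1 / ℓ ^ V ≤ 6 ^ V / L ^ V := by
    intro ℓ h
    have hℓ : 0 < ℓ := by linarith
    rw [div_le_div_iff₀ (by positivity) (by positivity), one_mul, ← mul_pow]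
    exact pow_le_pow_left₀ hL0.le h V
  have k7 : ∀ ℓ : ℝ, L ≤ 6 * ℓ → ℓ ≤ L → ℓ ^ 7 ≤ L ^ 7 := by
    intro ℓ h h'
    exact pow_le_pow_left₀ (by linarith) h' 7
  have hK : 2 * ((6 ^ V / L ^ V) * L ^ 7 * L ^ 7) ≤ (1 / L ^ (A + 2)) ^ 2 := by
    rw [div_pow, one_pow, le_div_iff₀ (by positivity)]
    have e : 2 * ((6 ^ V / L ^ V) * L ^ 7 * L ^ 7) * (L ^ (A + 2)) ^ 2 = (2 * 6 ^ V) * L ^ (2 * A + 18) / L ^ V := by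
      rw [← pow_mul, show (A + 2) * 2 = 2 * A + 4 by ring, show 2 * A + 18 = 7 + 7 + (2 * A + 4) by ring, pow_add,
        pow_add]
      ring
    rw [e, div_le_one (by positivity), hV]
    calc (2 * 6 ^ (2 * A + 19) : ℝ) * L ^ (2 * A + 18) ≤ L * L ^ (2 * A + 18) := by
          apply mul_le_mul_of_nonneg_right _ (by positivity)
          rw [hV] at hLN
          linarith
      _ = L ^ (2 * A + 19) := by ring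
  have fV : ∀ {P z r : ℕ}, ScK κ' A1 C1 A2 C3 U V P z r → L ≤ 6 * Real.log P →
      ∑ n ∈ Icc 1 P, ‖LS z r n - LZ z n‖ ^ 2 ≤ P * (6 ^ V / L ^ V) := by
    intro P z r s h
    refine s.e2.trans ?_
    rw [div_eq_mul_one_div]
    exact mul_le_mul_of_nonneg_left (kV _ h) (Nat.cast_nonneg _)
  have fS : ∀ {P z r : ℕ}, ScK κ' A1 C1 A2 C3 U V P z r → L ≤ 6 * Real.log P → Real.log P ≤ L →
      ∑ n ∈ Icc 1 P, ‖LS z r n‖ ^ 2 ≤ P * L ^ 7 := by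
    intro P z r s h h'
    exact s.s2.trans (mul_le_mul_of_nonneg_left (k7 _ h h') (Nat.cast_nonneg _))
  have fZ : ∀ {P z r : ℕ}, ScK κ' A1 C1 A2 C3 U V P z r → L ≤ 6 * Real.log P → Real.log P ≤ L →
      ∑ n ∈ Icc 1 P, ‖LZ z n‖ ^ 2 ≤ P * L ^ 7 := by
    intro P z r s h h'
    exact s.l2.trans (mul_le_mul_of_nonneg_left (k7 _ h h') (Nat.cast_nonneg _))
  have hKa : (0 : ℝ) ≤ 6 ^ V / L ^ V := by positivity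
  have hKb : (0 : ℝ) ≤ L ^ 7 := by positivity
  have t4 : ‖SS3 c1 c2 c3 d P1 P2 P3 (fun n => LS (zP B P1) r1 n - LZ (zP B P1) n) (LS (zP B P2) r2)
      (LS (zP B P3) r3)‖ ≤ μ / L ^ (A + 2) := by
    have := holdK h6 hp q1 hKa hKb hKb hX0 (fV s1 l1) (fS s2 l2 m2) (fS s3 l3 m3) hK
    rw [hμ, div_eq_mul_one_div]
    exact this
  have t5 : ‖SS3 c1 c2 c3 d P1 P2 P3 (LZ (zP B P1)) (fun n => LS (zP B P2) r2 n - LZ (zP B P2) n)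
      (LS (zP B P3) r3)‖ ≤ μ / L ^ (A + 2) := by
    have := holdK h6 hp q1 hKb hKa hKb hX0 (fZ s1 l1 m1) (fV s2 l2) (fS s3 l3 m3)
      (le_trans (le_of_eq (by ring)) hK)
    rw [hμ, div_eq_mul_one_div]
    exact this
  have t6 : ‖SS3 c1 c2 c3 d P1 P2 P3 (LZ (zP B P1)) (LZ (zP B P2))
      (fun n => LS (zP B P3) r3 n - LZ (zP B P3) n)‖ ≤ μ / L ^ (A + 2) := by
    have := holdK h6 hp q1 hKb hKb hKa hX0 (fZ s1 l1 m1) (fZ s2 l2 m2) (fV s3 l3)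
      (le_trans (le_of_eq (by ring)) hK)
    rw [hμ, div_eq_mul_one_div]
    exact this
  -- assembling
  have hFF : ∀ z r : ℕ, (fun n => LA n - LS z r n) = FF z r := by
    intro z r
    funext n
    unfold LA LS FF
    push_cast
    ring
  have hE : |S3 c1 c2 c3 d P1 P2 P3 (fun n => ArithmeticFunction.vonMangoldt n) (fun n => ArithmeticFunction.vonMangoldt n)
      (fun n => ArithmeticFunction.vonMangoldt n) -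
    S3 c1 c2 c3 d P1 P2 P3 (fun n => lamz (zP B P1) n) (fun n => lamz (zP B P2) n)
      (fun n => lamz (zP B P3) n)| = ‖SS3 c1 c2 c3 d P1 P2 P3 LA LA LA -
        SS3 c1 c2 c3 d P1 P2 P3 (LZ (zP B P1)) (LZ (zP B P2)) (LZ (zP B P3))‖ := by
    rw [← Real.norm_eq_abs, ← Complex.norm_real, Complex.ofReal_sub, S3_coe, S3_coe]
    rfl
  rw [hE, ← hμ]
  have hsplit : SS3 c1 c2 c3 d P1 P2 P3 LA LA LA -
        SS3 c1 c2 c3 d P1 P2 P3 (LZ (zP B P1)) (LZ (zP B P2)) (LZ (zP B P3)) =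
      (SS3 c1 c2 c3 d P1 P2 P3 (FF (zP B P1) r1) LA LA +
       SS3 c1 c2 c3 d P1 P2 P3 (LS (zP B P1) r1) (FF (zP B P2) r2) LA +
       SS3 c1 c2 c3 d P1 P2 P3 (LS (zP B P1) r1) (LS (zP B P2) r2) (FF (zP B P3) r3)) +
      (SS3 c1 c2 c3 d P1 P2 P3 (fun n => LS (zP B P1) r1 n - LZ (zP B P1) n) (LS (zP B P2) r2)
      (LS (zP B P3) r3) +
       SS3 c1 c2 c3 d P1 P2 P3 (LZ (zP B P1)) (fun n => LS (zP B P2) r2 n - LZ (zP B P2) n)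
      (LS (zP B P3) r3) +
       SS3 c1 c2 c3 d P1 P2 P3 (LZ (zP B P1)) (LZ (zP B P2))
      (fun n => LS (zP B P3) r3 n - LZ (zP B P3) n)) := by
    rw [← SS3_tel, ← hFF, ← hFF, ← hFF, ← SS3_tel]
    ring
  rw [hsplit]
  have hy : 0 ≤ μ / L ^ (A + 2) := by positivity
  calc ‖_‖ ≤ (μ / L ^ (A + 2) + μ / L ^ (A + 2) + μ / L ^ (A + 2)) +
        (μ / L ^ (A + 2) + μ / L ^ (A + 2) + μ / L ^ (A + 2)) := by
        refine (norm_add_le _ _).trans (add_le_add ?_ ?_)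
        · exact (norm_add₃_le).trans (add_le_add (add_le_add t1 t2) t3)
        · exact (norm_add₃_le).trans (add_le_add (add_le_add t4 t5) t6)
    _ = ((6 : ℕ) : ℝ) * (μ / L ^ (A + 2)) := by push_cast; ring
    _ ≤ μ / L ^ A := divpow2 hμ0 (by norm_num; linarith) hL1 (by omega)


end Pool.Agent.H579.Bk
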