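import Pool.Agent.H579.B.Tern
import Pool.Graph.R_seed8.R460.GH.Asm
import Pool.Graph.R_seed8.Y883.GJ.AsmT

set_option autoImplicit false

/-!
The replacement of the primes by the sieve models in the ternary equation, moduli up to the power `κ < 2 / 3` of
the length. Adapted from `Y949/GJ/Err7a` and `Y949/GJ/Err7`.
-/

namespace Pool.Agent.H579.Bk

open Finset
open Pool.Agent.Y883.GJ
open Pool.Agent.Y949.GJ
open Pool.Agent.H807R2.Dav (ee)
open Pool.Agent.H373R2.T7 (lamz Vz pz Vz_pos lamz_nonneg)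
open Pool.Agent.Y883.T3 (lsh)
open Pool.Agent.Y883.T6 (S3 zP)

/-- the facts at one scale -/
structure ScK (κ : ℝ) (A1 C1 A2 C3 U V P z r : ℕ) : Prop where
  sL : StrK κ A2 (C1 + 1) C3 P LA
  sS : StrK κ A2 (C1 + 1) C3 P (LS z r)
  sF : StrK κ A2 (C1 + 1) C3 P (FF z r)
  mF : MnrK κ A1 C1 P (FF z r)
  sup : ∀ α : ℝ, ‖∑ n ∈ Icc 1 P, FF z r n * ee (n * α)‖ ≤ P / Real.log P ^ U
  ncF : ∀ q : ℕ, 1 ≤ q → q ≤ P →
    ∑ n ∈ (Icc 1 P).filter (fun n => ¬ n.Coprime q), ‖FF z r n‖ ≤ P / Real.log P ^ U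
  e2 : ∑ n ∈ Icc 1 P, ‖LS z r n - LZ z n‖ ^ 2 ≤ P / Real.log P ^ V
  s2 : ∑ n ∈ Icc 1 P, ‖LS z r n‖ ^ 2 ≤ P * Real.log P ^ 7
  l2 : ∑ n ∈ Icc 1 P, ‖LZ z n‖ ^ 2 ≤ P * Real.log P ^ 7

/-- the facts at one scale -/
theorem scaleK {κ : ℝ} {A1 C1 A2 C3 U V U' P z r : ℕ} (hL : 2048 ≤ Real.log P)
    (hU : U ≤ U') (hA : A2 + 1 ≤ U') (hV : 2 * V + 12 ≤ U')
    (hF : ∀ (q : ℕ) [NeZero q], (q : ℝ) ≤ (P : ℝ) ^ κ → ∀ z r : ℕ,
      ((((z + 1) ^ r) ^ 100 : ℕ) : ℝ) ≤ P → (Vz z)⁻¹ ≤ Real.log P →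
      ∀ (k : ℕ) (h : ℤ) (β : ℝ), Real.log P ^ C1 ≤ k → (q : ℝ) * k * Real.log P ^ C1 ≤ P →
        IsCoprime h (k : ℤ) → |q * β - h / k| ≤ 1 / (k : ℝ) ^ 2 →
        ∑ χ : DirichletCharacter ℂ q, ‖cs q P (FF z r) β χ‖ ^ 2 ≤ (P : ℝ) ^ 2 / Real.log P ^ A1)
    (hLm : ∀ (q : ℕ) [NeZero q], (q : ℝ) ≤ (P : ℝ) ^ κ →
      ∃ B : Finset (DirichletCharacter ℂ q), 1 ∈ B ∧ (B.card : ℝ) ≤ Real.log P ^ C3 ∧
        ∀ η : ℝ, |η| ≤ Real.log P ^ (C1 + 1) / P → ∀ S : Finset (DirichletCharacter ℂ q), Disjoint S B →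
          ∑ χ ∈ S, ‖cs q P LA η χ‖ ^ 2 ≤ (P : ℝ) ^ 2 / Real.log P ^ (A2 + 4))
    (hH : ∀ (q : ℕ) [NeZero q], (q : ℝ) ≤ (P : ℝ) ^ κ → ∀ z r : ℕ,
      ((((z + 1) ^ r) ^ 100 : ℕ) : ℝ) ≤ P → (Vz z)⁻¹ ≤ Real.log P →
      ∀ η : ℝ, |η| ≤ Real.log P ^ (C1 + 1) / P → ∀ S : Finset (DirichletCharacter ℂ q), 1 ∉ S →
        ∑ χ ∈ S, ‖cs q P (LS z r) η χ‖ ^ 2 ≤ (P : ℝ) ^ 2 / Real.log P ^ (A2 + 4))
    (hP : Par U' P z r) (hm : ∑ n ∈ Icc 1 P, |lamz z n - lsh z r n| ≤ P / Real.log P ^ U') :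
    ScK κ A1 C1 A2 C3 U V P z r := by
  obtain ⟨L, hLd⟩ : ∃ L, L = Real.log (P : ℝ) := ⟨_, rfl⟩
  have hD := hP.hD
  have hVz := hP.hV
  have hTb := hP.hT
  have hS := hP.hS
  have hC := hP.hC
  have hLc := hP.hL
  rw [← hLd] at hL hF hLm hH hm hVz hTb hS hC hLc
  have hL1 : 1 ≤ L := by linarith
  have hL0 : 0 < L := by linarith
  have hP0 : (0 : ℝ) ≤ P := Nat.cast_nonneg _
  have htau : ∀ n ∈ Icc 1 P, (1 : ℝ) ≤ (n.divisors.card : ℝ) := by
    intro n hn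
    rw [mem_Icc] at hn
    exact_mod_cast Finset.card_pos.2 ⟨1, Nat.one_mem_divisors.2 (by omega)⟩
  have hLn : ∀ n ∈ Icc 1 P, ‖LA n‖ ≤ L := by
    intro n hn
    rw [mem_Icc] at hn
    unfold LA
    rw [Complex.norm_real, Real.norm_eq_abs, abs_of_nonneg ArithmeticFunction.vonMangoldt_nonneg]
    refine ArithmeticFunction.vonMangoldt_le_log.trans ?_
    rw [hLd]
    apply Real.log_le_log (by exact_mod_cast hn.1) (by exact_mod_cast hn.2)
  have hSn : ∀ n ∈ Icc 1 P, ‖LS z r n‖ ≤ L * (n.divisors.card : ℝ) := by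
    intro n hn
    have h1 := htau n hn
    rw [mem_Icc] at hn
    unfold LS
    rw [Complex.norm_real, Real.norm_eq_abs]
    refine (Pool.Agent.Y883.T3.lsh_le z r n hn.1).trans ?_
    exact mul_le_mul_of_nonneg_right hVz (by linarith)
  have hZn : ∀ n ∈ Icc 1 P, ‖LZ z n‖ ≤ L * (n.divisors.card : ℝ) := by
    intro n hn
    have h1 := htau n hn
    unfold LZ
    rw [Complex.norm_real, Real.norm_eq_abs, abs_of_nonneg (lamz_nonneg z n)]
    have h2 : lamz z n ≤ (Vz z)⁻¹ := by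
      unfold lamz
      split_ifs
      · exact le_rfl
      · exact (inv_pos.2 (Vz_pos z)).le
    calc lamz z n ≤ L := h2.trans hVz
      _ = L * 1 := (mul_one L).symm
      _ ≤ _ := mul_le_mul_of_nonneg_left h1 hL0.le
  have hFn : ∀ n, ‖FF z r n‖ = |ArithmeticFunction.vonMangoldt n - lsh z r n| := by
    intro n
    unfold FF
    rw [Complex.norm_real, Real.norm_eq_abs]
  have hncL : ∀ q : ℕ, 1 ≤ q → q ≤ P →
      ∑ n ∈ (Icc 1 P).filter (fun n => ¬ n.Coprime q), ‖LA n‖ ≤ P / L ^ U' := by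
    intro q h1 h2
    refine le_trans (le_of_eq ?_) (hLc q h1 h2)
    apply sum_congr rfl
    intro n _
    unfold LA
    rw [Complex.norm_real, Real.norm_eq_abs, abs_of_nonneg ArithmeticFunction.vonMangoldt_nonneg]
  have hncF : ∀ q : ℕ, 1 ≤ q → q ≤ P →
      ∑ n ∈ (Icc 1 P).filter (fun n => ¬ n.Coprime q), ‖FF z r n‖ ≤ P / L ^ U' := by
    intro q h1 h2
    refine le_trans (le_of_eq ?_) (hC q h1 h2)
    apply sum_congr rfl
    intro n _
    rw [hFn]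
  have hLS : ∀ n, LS z r n = LA n - FF z r n := by
    intro n
    unfold LS LA FF
    push_cast
    ring
  have hmajL : ∀ (q : ℕ) [NeZero q], (q : ℝ) ≤ (P : ℝ) ^ κ →
      ∃ B : Finset (DirichletCharacter ℂ q), 1 ∈ B ∧ (B.card : ℝ) ≤ L ^ C3 ∧
        ∀ η : ℝ, |η| ≤ L ^ (C1 + 1) / P → ∀ S : Finset (DirichletCharacter ℂ q), Disjoint S B →
          ∑ χ ∈ S, ‖cs q P LA η χ‖ ^ 2 ≤ (P : ℝ) ^ 2 / L ^ (A2 + 4) := hLm
  refine ⟨⟨?_, ?_, ?_⟩, ⟨?_, ?_, ?_⟩, ⟨?_, ?_, ?_⟩, ?_, ?_, ?_, ?_, ?_, ?_⟩ <;> (try rw [← hLd])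
  · intro n hn
    have h1 := hLn n hn
    have h2 := htau n hn
    calc ‖LA n‖ ≤ L := h1
      _ ≤ 2 * L * 1 := by linarith
      _ ≤ _ := mul_le_mul_of_nonneg_left h2 (by positivity)
  · intro q h1 h2
    exact (hncL q h1 h2).trans (divpow hP0 hL1 (by omega))
  · intro q _ hq
    obtain ⟨B, -, hB, h⟩ := hmajL q hq
    exact ⟨B, hB, fun η hη S hS => (h η hη S hS).trans (divpow (by positivity) hL1 (by omega))⟩
  · intro n hn
    have h1 := hSn n hn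
    have h2 := htau n hn
    refine h1.trans ?_
    apply mul_le_mul_of_nonneg_right _ (by linarith)
    linarith
  · intro q h1 h2
    have h3 : ∑ n ∈ (Icc 1 P).filter (fun n => ¬ n.Coprime q), ‖LS z r n‖ ≤ 2 * (P / L ^ U') := by
      calc ∑ n ∈ (Icc 1 P).filter (fun n => ¬ n.Coprime q), ‖LS z r n‖ ≤
            ∑ n ∈ (Icc 1 P).filter (fun n => ¬ n.Coprime q), (‖LA n‖ + ‖FF z r n‖) := by
              apply sum_le_sum
              intro n _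
              rw [hLS]
              exact norm_sub_le _ _
        _ ≤ P / L ^ U' + P / L ^ U' := by
            rw [sum_add_distrib]
            exact add_le_add (hncL q h1 h2) (hncF q h1 h2)
        _ = _ := by ring
    exact h3.trans (by exact_mod_cast divpow2 (k := 2) hP0 (by norm_num; linarith) hL1 hA)
  · intro q _ hq
    refine ⟨{1}, ?_, fun η hη S hS => ?_⟩
    · rw [card_singleton, Nat.cast_one]
      exact one_le_pow₀ hL1
    · have h1 : (1 : DirichletCharacter ℂ q) ∉ S := by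
        rw [disjoint_singleton_right] at hS
        exact hS
      exact (hH q hq z r hD hVz η hη S h1).trans (divpow (by positivity) hL1 (by omega))
  · intro n hn
    rw [hFn]
    exact hTb n hn
  · intro q h1 h2
    exact (hncF q h1 h2).trans (divpow hP0 hL1 (by omega))
  · intro q _ hq
    obtain ⟨B, h1B, hB, h⟩ := hmajL q hq
    refine ⟨B, hB, fun η hη S hS => ?_⟩
    have h1 : (1 : DirichletCharacter ℂ q) ∉ S := fun h' => (Finset.disjoint_left.1 hS h') h1B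
    have k1 := h η hη S hS
    have k2 := hH q hq z r hD hVz η hη S h1
    calc ∑ χ ∈ S, ‖cs q P (FF z r) η χ‖ ^ 2 ≤
          ∑ χ ∈ S, (2 * ‖cs q P LA η χ‖ ^ 2 + 2 * ‖cs q P (LS z r) η χ‖ ^ 2) := by
            apply sum_le_sum
            intro χ _
            rw [cs_sub]
            exact sq_sub_le _ _
      _ = 2 * ∑ χ ∈ S, ‖cs q P LA η χ‖ ^ 2 + 2 * ∑ χ ∈ S, ‖cs q P (LS z r) η χ‖ ^ 2 := by
          rw [sum_add_distrib, mul_sum, mul_sum]
      _ ≤ ((4 : ℕ) : ℝ) * ((P : ℝ) ^ 2 / L ^ (A2 + 4)) := by push_cast; linarith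
      _ ≤ (P : ℝ) ^ 2 / L ^ A2 := divpow2 (by positivity) (by norm_num; linarith) hL1 (by omega)
  · intro q _ hq k h β
    rw [← hLd]
    exact hF q hq z r hD hVz k h β
  · intro α
    exact (hS α).trans (divpow hP0 hL1 hU)
  · intro q h1 h2
    exact (hncF q h1 h2).trans (divpow hP0 hL1 hU)
  · apply sq_small hLd hL hV
    · intro n hn
      refine (norm_sub_le _ _).trans ?_
      have h1 := hSn n hn
      have h2 := hZn n hn
      linarith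
    · refine le_trans (le_of_eq ?_) hm
      apply sum_congr rfl
      intro n _
      unfold LS LZ
      rw [← Complex.ofReal_sub, Complex.norm_real, Real.norm_eq_abs, abs_sub_comm]
  · exact sq_mom hLd (by linarith) hSn
  · exact sq_mom hLd (by linarith) hZn


end Pool.Agent.H579.Bk
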