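import Pool.Agent.H579.B.Solve

set_option autoImplicit false

/-! The inputs of the ternary equation for the moduli up to the power `2 / 3` of the length. -/

namespace Pool.Agent.H579.Bk

open Finset
open Pool.Agent.Y883.GJ
open Pool.Agent.R460.GS
open Pool.Agent.R460.GH
open Pool.Agent.H373R2.T7 (Vz)

lemma exp23 (κ : ℝ) : (7 / 10 - (1 / 30 + (2 / 3 - κ)) : ℝ) = κ := by ring

theorem inpL : InpL (2 / 3) := by
  intro A C κ hκ
  obtain ⟨C₃, N₀, h⟩ := mLA Pool.Agent.Y812.GJ.l2 (bilMaj3 Pool.Agent.Y812.GJ.l2 (countK Pool.Agent.Y812.GJ.l2)) A C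
    (ρ := 2 / 3 - κ) (by linarith)
  refine ⟨C₃, N₀, fun N hN q _ hq => ?_⟩
  obtain ⟨B, h1, h2, h3⟩ := h N hN q (by rw [exp23]; exact hq)
  exact ⟨B, h1, h2, fun η hη S hS => h3 η hη N le_rfl S hS⟩

theorem inpH : InpH (2 / 3) := by
  intro A C κ hκ
  obtain ⟨N₀, h⟩ := mHU (tiMaj2 Pool.Agent.Y812.GJ.l2) Pool.Agent.Y812.GJ.lsh_le A C
    (ρ := 1 / 30 + (2 / 3 - κ)) (by linarith)
  exact ⟨N₀, fun N hN q _ hq z r h1 h2 η hη S hS => h N hN q (by rw [exp23]; exact hq) z r h1 h2 η hη N le_rfl S hS⟩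

theorem inpF : InpF (2 / 3) := by
  intro A κ hκ
  obtain ⟨C1, N1, h1⟩ := nLA Pool.Agent.Y812.GJ.l2 Pool.Agent.Y909.GJ.bilMin (A + 2) (ρ := 2 / 3 - κ) (by linarith)
  obtain ⟨C2, N2, h2⟩ := nHU Pool.Agent.Y412.GJ.tiMin Pool.Agent.Y812.GJ.lsh_le (A + 2)
    (ρ := 1 / 30 + (2 / 3 - κ)) (by linarith)
  obtain ⟨N3, h3⟩ := Pool.Agent.Y949.GJ.ev_log 2
  refine ⟨max C1 C2, N1 + N2 + N3, fun N hN q _ hq z r hD hV k h β k1 k2 k3 k4 => ?_⟩
  have h4 := min_FF (h3 N (by omega)) (h1 N (by omega)) (h2 N (by omega) z r hD hV)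
  exact h4 q (by rw [exp23]; exact hq) k h β k1 k2 k3 k4 N le_rfl

/-- the pointwise bound on the major arcs, three factors -/
theorem tpwK_all : TPWK :=
  tPWK Pool.Agent.Y297.GJ.orth Pool.Agent.Y812.GJ.l2 Pool.Agent.Y185.GJ.smallC
    Pool.Agent.Y812.GJ.nonU Pool.Agent.Y445.GJ.tNorm Pool.Agent.Y702.GJ.tJac

/-- the ternary error term -/
theorem ternK_all : TernK :=
  ternK tpwK_all Pool.Agent.Y445.GJ.tNorm Pool.Agent.Y730.GJ.tLift Pool.Agent.Y730.GJ.tPars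
    Pool.Agent.Y297.GJ.orth Pool.Agent.Y812.GJ.nonU

/-- the error term of the equation -/
theorem errK_all : ErrK (2 / 3) :=
  errK (by norm_num) ternK_all inpL inpH inpF model_all Pool.Agent.Y756.GJ.hold

end Pool.Agent.H579.Bk
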