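import Pool.Agent.H579.B.Err
import Pool.Graph.R_seed8.Y883.GJ.Final7

set_option autoImplicit false

/-! The ternary equation: existence of prime solutions (adapted from `Y883/GJ/Solve7` and `Y883/GJ/Final7`). -/

namespace Pool.Agent.H579.Bk

open Finset
open Pool.Agent.H373R2.T7
open Pool.Agent.Y883.T3 (ev_log_rpow)
open Pool.Agent.Y883.T5
open Pool.Agent.Y883.T6
open Pool.Agent.Y883.GJ (Cnd7 sol_all7)

lemma ParK.par6 {κ : ℝ} (hκ : κ ≤ 4 / 5) {N T : ℕ} {c1 c2 c3 d : ℤ} {P1 P2 P3 : ℕ} (h : ParK κ N T c1 c2 c3 d P1 P2 P3) :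
    Par6 (1 / 16) N 0 c1 c2 c3 d P1 P2 P3 := by
  have ha1 : 1 ≤ c1.natAbs := Int.natAbs_pos.2 h.n1
  have ha2 : 1 ≤ c2.natAbs := Int.natAbs_pos.2 h.n2
  have ha3 : 1 ≤ c3.natAbs := Int.natAbs_pos.2 h.n3
  have key : ∀ a P m : ℕ, 1 ≤ a → a * P ≤ N → N < 2 * (a * P) → (m : ℝ) ≤ (P : ℝ) ^ κ →
      (m : ℝ) ≤ (N : ℝ) ^ (1 - 2 * (1 / 16 : ℝ)) := by
    intro a P m ha hu hv hm
    have hP1 : 1 ≤ P := by
      by_contra hc
      have : P = 0 := by omega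
      subst this
      simp at hv
    have hPN : P ≤ N := (Nat.le_mul_of_pos_left _ ha).trans hu
    have hP1r : (1 : ℝ) ≤ P := by exact_mod_cast hP1
    have hPNr : (P : ℝ) ≤ N := by exact_mod_cast hPN
    calc (m : ℝ) ≤ (P : ℝ) ^ κ := hm
      _ ≤ (P : ℝ) ^ (1 - 2 * (1 / 16 : ℝ)) := Real.rpow_le_rpow_of_exponent_le hP1r (by linarith)
      _ ≤ (N : ℝ) ^ (1 - 2 * (1 / 16 : ℝ)) := Real.rpow_le_rpow (by linarith) hPNr (by norm_num)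
  have gk : ∀ x y : ℤ, IsCoprime x y → ((Nat.gcd x.natAbs y.natAbs : ℕ) : ℝ) ≤ Real.log N ^ 0 := by
    intro x y hxy
    have : Nat.gcd x.natAbs y.natAbs = 1 := by
      have := Int.isCoprime_iff_gcd_eq_one.1 hxy
      exact this
    rw [this, pow_zero]
    norm_num
  exact ⟨h.n1, h.n2, h.n3, h.u1, h.u2, h.u3, h.v1, h.v2, h.v3, h.hd, key _ _ _ ha3 h.u3 h.v3 h.q3,
    key _ _ _ ha2 h.u2 h.v2 h.q2, key _ _ _ ha1 h.u1 h.v1 h.q1, gk _ _ h.g12, gk _ _ h.g13, gk _ _ h.g23⟩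

theorem solveK {lam : ℝ} (hlam : lam ≤ 4 / 5) (hE : ErrK lam) (T' : ℕ) (κ : ℝ) (hκ0 : 0 < κ) (hκ : κ < lam) :
    ∃ N₀ : ℕ, ∀ N : ℕ, N₀ ≤ N → ∀ {c1 c2 c3 d : ℤ} {P1 P2 P3 : ℕ},
    ParK κ N T' c1 c2 c3 d P1 P2 P3 → 0 < c1 → 0 < c2 → c3 < 0 → Adm c1 c2 (-c3) d →
    ∃ x y z : ℕ, x.Prime ∧ y.Prime ∧ z.Prime ∧ c1 * x + c2 * y + c3 * z = d ∧ x ≤ P1 ∧ y ≤ P2 ∧ z ≤ P3 := by
  classical
  obtain ⟨σ, hσd⟩ : ∃ σ : ℝ, σ = 1 / 16 := ⟨_, rfl⟩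
  have hσ : 0 < σ := by rw [hσd]; norm_num
  obtain ⟨T, hT⟩ : ∃ T : ℕ, T = 0 := ⟨_, rfl⟩
  obtain ⟨B, hB, N₂, h2⟩ := hE (6 * T + 10) T' 6 κ hκ0 hκ
  obtain ⟨N₁, h1⟩ := scale_size σ hσ
  obtain ⟨N₃, h3⟩ := err_prime T σ hσ
  obtain ⟨N₄, h4⟩ := low T (B + 1) σ hσ
  obtain ⟨N₅, h5⟩ := Vz_inv_small (B + 1)
  obtain ⟨C₀, hC₀⟩ := exists_nat_ge (1 / σ)
  have hC0 : (0 : ℝ) < C₀ := lt_of_lt_of_le (by positivity) hC₀
  have hCσ : 1 / (C₀ : ℝ) ≤ σ := by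
    rw [div_le_iff₀ hC0]
    rw [div_le_iff₀ hσ] at hC₀
    linarith
  obtain ⟨N₆, h6⟩ := ev_L' (C₀ ^ B + 25 * C₀ + 100)
  obtain ⟨N₇, h7⟩ := Pool.Agent.Y883.tendsto_pow_log (N₅ + 2 : ℝ) σ hσ
  refine ⟨N₁ + N₂ + N₃ + N₄ + N₆ + N₇ + 2, fun N hN c1 c2 c3 d P1 P2 P3 hp7 hc1 hc2 hc3 hadm => ?_⟩
  have hp : Par6 σ N T c1 c2 c3 d P1 P2 P3 := by rw [hσd, hT]; exact hp7.par6 (by linarith)
  obtain ⟨b11, b12, b13, b14, b15⟩ := h1 N (by omega) hp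
  obtain ⟨b21, b22, b23, b24, b25⟩ := h1 N (by omega) hp.swap
  obtain ⟨b31, b32, b33, b34, b35⟩ := h1 N (by omega) hp.rot.rot
  have hL := h6 N (by omega)
  have c7 := h7 N (by omega)
  have hN1 : 1 ≤ N := by omega
  have hN0 : (0 : ℝ) < N := by exact_mod_cast hN1
  obtain ⟨L, hLd⟩ : ∃ L, L = Real.log (N : ℝ) := ⟨_, rfl⟩
  rw [← hLd] at hL b14 b15 b24 b25 b34 b35
  have hB4 : (0 : ℝ) < C₀ ^ B := by positivity
  have hL100 : 100 ≤ L := by linarith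
  have hL0 : 0 < L := by linarith
  have hL1 : 1 ≤ L := by linarith
  -- the parameters of the models
  have hz : ∀ P : ℕ, (N : ℝ) ^ σ ≤ P → σ * L ≤ Real.log P → Real.log P ≤ L →
      L ^ 5 ≤ (zP B P : ℝ) ∧ (zP B P : ℝ) ≤ L ^ (B + 1) ∧ (Vz (zP B P))⁻¹ ≤ L := by
    intro P hP hl1' hl2
    have hl1 : L / C₀ ≤ Real.log P := by
      refine le_trans ?_ hl1'
      rw [div_eq_mul_one_div, mul_comm]
      exact mul_le_mul_of_nonneg_right hCσ hL0.le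
    have hlP : 25 ≤ Real.log P := by
      refine le_trans ?_ hl1
      rw [le_div_iff₀ hC0]
      linarith
    have hlP0 : 0 < Real.log P := by linarith
    have e1 : Real.log P ^ B ≤ (zP B P : ℝ) := Nat.le_ceil _
    have e2 : (zP B P : ℝ) < Real.log P ^ B + 1 := Nat.ceil_lt_add_one (by positivity)
    have e3 : 1 ≤ Real.log P ^ B := one_le_pow₀ (by linarith)
    have e4 : (zP B P : ℝ) ≤ Real.log P ^ (B + 1) := by
      calc (zP B P : ℝ) ≤ Real.log P ^ B + 1 := e2.le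
        _ ≤ 2 * Real.log P ^ B := by linarith
        _ ≤ Real.log P * Real.log P ^ B := mul_le_mul_of_nonneg_right (by linarith) (by positivity)
        _ = Real.log P ^ (B + 1) := by ring
    refine ⟨?_, ?_, ?_⟩
    · refine le_trans ?_ e1
      calc L ^ 5 ≤ L ^ (B - 1) := pow_le_pow_right₀ hL1 (by omega)
        _ ≤ (L / C₀) ^ B := by
            rw [div_pow, le_div_iff₀ hB4]
            calc L ^ (B - 1) * C₀ ^ B ≤ L ^ (B - 1) * L := mul_le_mul_of_nonneg_left (by linarith) (by positivity)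
              _ = L ^ B := by rw [← pow_succ]; congr 1; omega
        _ ≤ Real.log P ^ B := pow_le_pow_left₀ (by positivity) hl1 _
    · exact e4.trans (pow_le_pow_left₀ hlP0.le hl2 _)
    · have hN5 : N₅ ≤ P := by
        have : (N₅ : ℝ) ≤ P := by linarith
        exact_mod_cast this
      have hz1 : 1 ≤ zP B P := by
        have : (1 : ℝ) ≤ zP B P := e3.trans e1
        exact_mod_cast this
      exact (h5 P hN5 (zP B P) hz1 e4).trans hl2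
  obtain ⟨z11, z12, z13⟩ := hz P1 b11 b14 b15
  obtain ⟨z21, z22, z23⟩ := hz P2 b21 b24 b25
  obtain ⟨z31, z32, z33⟩ := hz P3 b31 b34 b35
  obtain ⟨z, hzd⟩ : ∃ z, z = max (zP B P1) (max (zP B P2) (zP B P3)) := ⟨_, rfl⟩
  have hz1 : zP B P1 ≤ z := by rw [hzd]; exact le_max_left _ _
  have hz2 : zP B P2 ≤ z := by rw [hzd]; exact (le_max_left _ _).trans (le_max_right _ _)
  have hz3 : zP B P3 ≤ z := by rw [hzd]; exact (le_max_right _ _).trans (le_max_right _ _)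
  have hzlo : L ^ 5 ≤ (z : ℝ) := z11.trans (by exact_mod_cast hz1)
  have hzhi : (z : ℝ) ≤ L ^ (B + 1) := by
    rw [hzd]
    push_cast
    exact max_le z12 (max_le z22 z32)
  -- the coefficients
  obtain ⟨a1, ha1⟩ : ∃ a1 : ℕ, a1 = c1.natAbs := ⟨_, rfl⟩
  obtain ⟨a2, ha2⟩ : ∃ a2 : ℕ, a2 = c2.natAbs := ⟨_, rfl⟩
  obtain ⟨a3, ha3⟩ : ∃ a3 : ℕ, a3 = c3.natAbs := ⟨_, rfl⟩
  have ha11 : 1 ≤ a1 := by rw [ha1]; exact Int.natAbs_pos.2 hp.n1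
  have ha21 : 1 ≤ a2 := by rw [ha2]; exact Int.natAbs_pos.2 hp.n2
  have ha31 : 1 ≤ a3 := by rw [ha3]; exact Int.natAbs_pos.2 hp.n3
  have hc1' : c1 = (a1 : ℤ) := by rw [ha1]; omega
  have hc2' : c2 = (a2 : ℤ) := by rw [ha2]; omega
  have hc3' : c3 = -(a3 : ℤ) := by rw [ha3]; omega
  obtain ⟨μ, hμ⟩ : ∃ μ : ℝ, μ = (N : ℝ) ^ 2 / (a1 * a2 * a3) := ⟨_, rfl⟩
  have ha10 : (0 : ℝ) < a1 := by exact_mod_cast ha11
  have ha20 : (0 : ℝ) < a2 := by exact_mod_cast ha21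
  have ha30 : (0 : ℝ) < a3 := by exact_mod_cast ha31
  have hμ0 : 0 < μ := by rw [hμ]; positivity
  obtain ⟨ε, hε⟩ : ∃ ε : ℝ, ε = μ / L ^ (6 * T + 10) := ⟨_, rfl⟩
  have hε0 : 0 < ε := by rw [hε]; positivity
  have hε1 : (N : ℝ) ^ 2 / (c1.natAbs * c2.natAbs * c3.natAbs) / Real.log N ^ (6 * T + 10) = ε := by
    rw [hε, hμ, ← hLd, ← ha1, ← ha2, ← ha3]
  have hε2 : (N : ℝ) ^ 2 / (c2.natAbs * c1.natAbs * c3.natAbs) / Real.log N ^ (6 * T + 10) = ε := by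
    rw [← hε1, mul_comm (c2.natAbs : ℝ)]
  have hε3 : (N : ℝ) ^ 2 / (c3.natAbs * c1.natAbs * c2.natAbs) / Real.log N ^ (6 * T + 10) = ε := by
    rw [← hε1]
    congr 2
    ring
  -- the functions
  have f1 := lam_bound b15
  have f2 := lam_bound b25
  have f3 := lam_bound b35
  have k1 := lamQ_bound b15 hL0.le
  have k2 := lamQ_bound b25 hL0.le
  rw [hLd] at f1 f2 f3 k1 k2
  have r1 := h2 N (by omega) hp7
  rw [hε1] at r1
  have r2 := rep3 (c1 := c1) (c2 := c2) (c3 := c3) (d := d) (P1 := P1) (P2 := P2) (P3 := P3)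
    (fun n => (ArithmeticFunction.vonMangoldt n : ℝ)) (fun n => (ArithmeticFunction.vonMangoldt n : ℝ))
    (fun n => (ArithmeticFunction.vonMangoldt n : ℝ)) (fun n => lamQ n) (fun n => lamQ n)
    (fun n => lamQ n) (ε := ε)
    (by rw [← hε1]; exact h3 N (by omega) hp f2 f3)
    (by rw [← hε2]; exact h3 N (by omega) hp.swap k1 f3)
    (by rw [← hε3]; exact h3 N (by omega) hp.rot.rot k1 k2)
  have hlow := h4 N (by omega) z (by rw [← hLd]; exact hzlo) (by rw [← hLd]; exact hzhi) a1 a2 a3 ha11 ha21 ha31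
    (by rw [ha1, ha2]; exact hp.q12) (by
      refine le_trans ?_ hp.q13
      rw [← ha3]
      exact_mod_cast Nat.le_mul_of_pos_left _ (by rw [← ha1]; exact ha11)) (by rw [ha1, ha2]; exact hp.g12) d hp.hd
    (by
      rw [hc1', hc2', hc3', neg_neg] at hadm
      exact hadm) P1 P2 P3 (by rw [ha1]; exact hp.v1) (by rw [ha2]; exact hp.v2) (by rw [ha3]; exact hp.v3)
    (fun n => lamz (zP B P1) n) (fun n => lamz (zP B P2) n) (fun n => lamz (zP B P3) n)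
    (fun n => lamz_nonneg' _ n) (fun n => lamz_nonneg' _ n) (fun n => lamz_nonneg' _ n)
    (fun n h => lamz_rough hz1 h) (fun n h => lamz_rough hz2 h) (fun n h => lamz_rough hz3 h)
  rw [← hc1', ← hc2', ← hc3', ← hLd] at hlow
  have hlow2 : (N : ℝ) ^ 2 / (a1 * a2 * a3 * L ^ (6 * T + 9)) = L * ε := by
    rw [hε, hμ, show 6 * T + 10 = (6 * T + 9) + 1 by ring, pow_succ L (6 * T + 9)]
    field_simp
  rw [hlow2] at hlow
  have hpos : 0 < S3 c1 c2 c3 d P1 P2 P3 (fun n => lamQ n) (fun n => lamQ n) (fun n => lamQ n) := by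
    have e1 := (abs_le.1 r1).1
    have e2 := (abs_le.1 r2).2
    have e3 : 100 * ε ≤ L * ε := mul_le_mul_of_nonneg_right hL100 hε0.le
    linarith
  by_contra hcon
  push Not at hcon
  have hzero : S3 c1 c2 c3 d P1 P2 P3 (fun n => lamQ n) (fun n => lamQ n) (fun n => lamQ n) = 0 := by
    unfold S3
    apply sum_eq_zero
    intro x hx
    apply sum_eq_zero
    intro y hy
    apply sum_eq_zero
    intro w hw
    rw [mem_Icc] at hx hy hw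
    split_ifs with heq
    · by_cases px : x.Prime
      · by_cases py : y.Prime
        · by_cases pw : w.Prime
          · exact absurd hw.2 (not_le.2 (hcon x y w px py pw heq hx.2 hy.2))
          · change lamQ x * lamQ y * lamQ w = 0
            rw [lamQ_zero pw, mul_zero]
        · change lamQ x * lamQ y * lamQ w = 0
          rw [lamQ_zero py, mul_zero, zero_mul]
      · change lamQ x * lamQ y * lamQ w = 0
        rw [lamQ_zero px, zero_mul, zero_mul]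
    · rfl
  rw [hzero] at hpos
  exact lt_irrefl _ hpos

theorem fixedK {lam : ℝ} (hlam0 : 0 < lam) (hlam : lam ≤ 4 / 5) (hE : ErrK lam) (θ : ℝ) (hθ : 1 / lam < θ) (T : ℕ) : ∃ c₀ : ℕ, ∀ Δ a1 a2 a3 : ℕ, c₀ ≤ Δ → ∀ d : ℤ,
    Cnd7 T Δ a1 a2 a3 d.natAbs → Adm a1 a2 a3 d →
      ∃ x y z : ℕ, x.Prime ∧ y.Prime ∧ z.Prime ∧ (a1 : ℤ) * x + a2 * y = d + a3 * z ∧
        ((max (a1 * x) (max (a2 * y) (a3 * z)) : ℕ) : ℝ) ≤ 3 * |(d : ℝ)| + (min a1 (min a2 a3) : ℕ) * (Δ : ℝ) ^ θ := by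
  obtain ⟨θ₁, hθ₁⟩ : ∃ θ₁ : ℝ, θ₁ = (θ + 1 / lam) / 2 := ⟨_, rfl⟩
  have hθ12 : 1 / lam < θ₁ := by rw [hθ₁]; linarith
  have h54 : 5 / 4 ≤ 1 / lam := by
    rw [le_div_iff₀ hlam0]
    linarith
  obtain ⟨δ, hδ⟩ : ∃ δ : ℝ, δ = θ - θ₁ := ⟨_, rfl⟩
  have hδ0 : 0 < δ := by rw [hδ, hθ₁]; linarith
  obtain ⟨κ, hκ⟩ : ∃ κ : ℝ, κ = 1 / θ₁ := ⟨_, rfl⟩
  have hθ10 : 0 < θ₁ := by linarith
  have hκ0 : 0 < κ := by rw [hκ]; positivity
  have hκl : κ < lam := by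
    rw [hκ, div_lt_iff₀ hθ10]
    rw [div_lt_iff₀ hlam0] at hθ12
    linarith
  obtain ⟨N₂, h2⟩ := solveK hlam hE T κ hκ0 hκl
  obtain ⟨c₀, hc₀⟩ := exists_nat_ge ((6 : ℝ) ^ (1 / δ))
  refine ⟨c₀ + N₂ + 2, fun Δ a1 a2 a3 hΔ d hC hadm => ?_⟩
  have hθ1' : 1 ≤ θ₁ := by linarith
  have hΔ1 : 1 ≤ Δ := by omega
  have hΔ0 : (0 : ℝ) < Δ := by exact_mod_cast hΔ1
  have hΔ1r : (1 : ℝ) ≤ Δ := by exact_mod_cast hΔ1
  have hcΔ : (c₀ : ℝ) ≤ Δ := by exact_mod_cast (by omega : c₀ ≤ Δ)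
  have hΔ6 : (6 : ℝ) ^ (1 / δ) ≤ Δ := hc₀.trans hcΔ
  have hp1 := hC.p1
  have hp2 := hC.p2
  have hp3 := hC.p3
  obtain ⟨Yc, hYc⟩ : ∃ Yc : ℕ, Yc = ⌈(Δ : ℝ) ^ θ₁⌉₊ := ⟨_, rfl⟩
  have hYc1 : (Δ : ℝ) ^ θ₁ ≤ Yc := by rw [hYc]; exact Nat.le_ceil _
  have hYc2 : (Yc : ℝ) < (Δ : ℝ) ^ θ₁ + 1 := by rw [hYc]; exact Nat.ceil_lt_add_one (by positivity)
  have hΔΔ : (Δ : ℝ) ≤ (Δ : ℝ) ^ θ₁ := by
    calc (Δ : ℝ) = (Δ : ℝ) ^ (1 : ℝ) := (Real.rpow_one _).symm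
      _ ≤ _ := Real.rpow_le_rpow_of_exponent_le hΔ1r hθ1'
  have hΔYc : Δ ≤ Yc := by exact_mod_cast hΔΔ.trans hYc1
  obtain ⟨μ, hμ⟩ : ∃ μ, μ = min a1 (min a2 a3) := ⟨_, rfl⟩
  have hμ1 : 1 ≤ μ := by omega
  have hμr : (1 : ℝ) ≤ μ := by exact_mod_cast hμ1
  obtain ⟨N, hN⟩ : ∃ N, N = 3 * max d.natAbs (μ * Yc) := ⟨_, rfl⟩
  have hdN : 3 * |d| ≤ N := by
    rw [← Int.natCast_natAbs, hN]
    have := le_max_left d.natAbs (μ * Yc)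
    exact_mod_cast Nat.mul_le_mul_left 3 this
  have hYN : 3 * (μ * Yc) ≤ N := by
    rw [hN]
    exact Nat.mul_le_mul_left 3 (le_max_right _ _)
  have hYμ : Yc ≤ μ * Yc := Nat.le_mul_of_pos_left _ hμ1
  have hΔN : Δ ≤ N := by omega
  have hN1 : 1 ≤ N := by omega
  have hN0 : (0 : ℝ) < N := by exact_mod_cast hN1
  have hYNr : 3 * ((μ : ℝ) * Yc) ≤ N := by exact_mod_cast hYN
  have hμN : 3 * ((μ : ℝ) * (Δ : ℝ) ^ θ₁) ≤ N := by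
    refine le_trans ?_ hYNr
    have : (μ : ℝ) * (Δ : ℝ) ^ θ₁ ≤ μ * Yc := mul_le_mul_of_nonneg_left hYc1 (by positivity)
    linarith
  have ha1Δ : a1 ≤ Δ := (Nat.le_mul_of_pos_right _ hp2).trans hC.u12
  have ha2Δ : a2 ≤ Δ := (Nat.le_mul_of_pos_right _ hp3).trans hC.u23
  have ha3Δ : a3 ≤ Δ := (Nat.le_mul_of_pos_right _ hp1).trans hC.u31
  obtain ⟨k1, hk1⟩ : ∃ k1, k1 = Nat.log 2 (N / a1) := ⟨_, rfl⟩
  obtain ⟨k2, hk2⟩ : ∃ k2, k2 = Nat.log 2 (N / a2) := ⟨_, rfl⟩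
  obtain ⟨k3, hk3⟩ : ∃ k3, k3 = Nat.log 2 (N / a3) := ⟨_, rfl⟩
  obtain ⟨u1, v1⟩ := len_spec hp1 (by omega : a1 ≤ N)
  obtain ⟨u2, v2⟩ := len_spec hp2 (by omega : a2 ≤ N)
  obtain ⟨u3, v3⟩ := len_spec hp3 (by omega : a3 ≤ N)
  rw [← hk1] at u1 v1
  rw [← hk2] at u2 v2
  rw [← hk3] at u3 v3
  have hlogΔ : Real.log Δ ≤ Real.log N := Real.log_le_log hΔ0 (by exact_mod_cast hΔN)
  have hlogΔ0 : 0 ≤ Real.log Δ := Real.log_nonneg hΔ1r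
  have hpow : Real.log Δ ^ T ≤ Real.log N ^ T := pow_le_pow_left₀ hlogΔ0 hlogΔ _
  have hprod := hC.prod
  rw [← hμ] at hprod
  have hlen : ∀ a b P : ℕ, 1 ≤ a → 1 ≤ b → b ≤ Δ → a * b ≤ μ * Δ → N < 2 * (a * P) →
      (b : ℝ) ≤ (P : ℝ) ^ κ := by
    intro a b P ha hb hbΔ hab hNa
    have h5 := len_pow hθ1' ha hb hbΔ hab hμN hNa
    have hb0 : (0 : ℝ) ≤ b := Nat.cast_nonneg _
    rw [hκ]
    calc (b : ℝ) = ((b : ℝ) ^ θ₁) ^ (1 / θ₁) := by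
          rw [← Real.rpow_mul hb0, mul_one_div_cancel (by linarith), Real.rpow_one]
      _ ≤ (P : ℝ) ^ (1 / θ₁) := Real.rpow_le_rpow (by positivity) h5 (by positivity)
  have hna1 : ((a1 : ℤ)).natAbs = a1 := Int.natAbs_natCast _
  have hna2 : ((a2 : ℤ)).natAbs = a2 := Int.natAbs_natCast _
  have hna3 : (-(a3 : ℤ)).natAbs = a3 := by rw [Int.natAbs_neg, Int.natAbs_natCast]
  have hpar : ParK κ N T (a1 : ℤ) (a2 : ℤ) (-(a3 : ℤ)) d (2 ^ k1) (2 ^ k2) (2 ^ k3) := by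
    refine ⟨by omega, by omega, by omega, by rw [hna1]; exact u1, by rw [hna2]; exact u2, by rw [hna3]; exact u3,
      by rw [hna1]; exact v1, by rw [hna2]; exact v2, by rw [hna3]; exact v3, hdN, ?_, ?_, ?_, ?_, ?_, ?_, ?_⟩
    · rw [hna2, hna3]
      exact hlen a1 (a2 * a3) _ hp1 (Nat.mul_pos hp2 hp3) hC.u23 hprod v1
    · rw [hna1, hna3, mul_comm a1 a3]
      exact hlen a2 (a3 * a1) _ hp2 (Nat.mul_pos hp3 hp1) hC.u31 (by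
        calc a2 * (a3 * a1) = a1 * (a2 * a3) := by ring
          _ ≤ _ := hprod) v2
    · rw [hna1, hna2]
      exact hlen a3 (a1 * a2) _ hp3 (Nat.mul_pos hp1 hp2) hC.u12 (by
        calc a3 * (a1 * a2) = a1 * (a2 * a3) := by ring
          _ ≤ _ := hprod) v3
    · exact Nat.isCoprime_iff_coprime.2 hC.g12
    · have : IsCoprime (a1 : ℤ) (a3 : ℤ) := Nat.isCoprime_iff_coprime.2 (by rw [Nat.coprime_comm]; exact hC.g31)
      exact this.neg_right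
    · have : IsCoprime (a2 : ℤ) (a3 : ℤ) := Nat.isCoprime_iff_coprime.2 hC.g23
      exact this.neg_right
    · rw [hna1, hna2, hna3]
      exact hC.gd.trans hpow
  obtain ⟨x, y, z, g1, g2, g3, g4, g5, g6, g7⟩ := h2 N (by omega) hpar
    (by exact_mod_cast hp1) (by exact_mod_cast hp2) (by
      have : (0 : ℤ) < a3 := by exact_mod_cast hp3
      linarith) (by rw [neg_neg]; exact hadm)
  refine ⟨x, y, z, g1, g2, g3, by linarith, ?_⟩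
  have hmax : max (a1 * x) (max (a2 * y) (a3 * z)) ≤ N := max_le ((Nat.mul_le_mul_left _ g5).trans u1)
    (max_le ((Nat.mul_le_mul_left _ g6).trans u2) ((Nat.mul_le_mul_left _ g7).trans u3))
  have hmaxr : ((max (a1 * x) (max (a2 * y) (a3 * z)) : ℕ) : ℝ) ≤ N := by exact_mod_cast hmax
  refine hmaxr.trans ?_
  rw [← hμ]
  have hd0 : 0 ≤ |(d : ℝ)| := abs_nonneg _
  have hpos : 0 ≤ (μ : ℝ) * (Δ : ℝ) ^ θ := by positivity
  rcases le_total d.natAbs (μ * Yc) with h | h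
  · have hNe : N = 3 * (μ * Yc) := by rw [hN, max_eq_right h]
    have hNer : (N : ℝ) = μ * (3 * Yc) := by rw [hNe]; push_cast; ring
    rw [hNer]
    have e1 : 1 ≤ (Δ : ℝ) ^ θ₁ := hΔ1r.trans hΔΔ
    have e2 : (6 : ℝ) ≤ (Δ : ℝ) ^ δ := by
      calc (6 : ℝ) = ((6 : ℝ) ^ (1 / δ)) ^ δ := by
            rw [← Real.rpow_mul (by norm_num), one_div_mul_cancel hδ0.ne', Real.rpow_one]
        _ ≤ (Δ : ℝ) ^ δ := Real.rpow_le_rpow (by positivity) hΔ6 hδ0.le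
    have e3 : 3 * (Yc : ℝ) ≤ (Δ : ℝ) ^ θ := by
      calc 3 * (Yc : ℝ) ≤ 6 * (Δ : ℝ) ^ θ₁ := by linarith
        _ ≤ (Δ : ℝ) ^ δ * (Δ : ℝ) ^ θ₁ := mul_le_mul_of_nonneg_right e2 (by positivity)
        _ = (Δ : ℝ) ^ (δ + θ₁) := (Real.rpow_add hΔ0 _ _).symm
        _ = (Δ : ℝ) ^ θ := by congr 1; rw [hδ]; ring
    have e4 : (μ : ℝ) * (3 * Yc) ≤ μ * (Δ : ℝ) ^ θ := mul_le_mul_of_nonneg_left e3 (by positivity)
    linarith
  · have hNe : N = 3 * d.natAbs := by rw [hN, max_eq_left h]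
    rw [hNe]
    push_cast
    rw [Nat.cast_natAbs]
    push_cast
    linarith

/-- all admissible equations with pairwise coprime coefficients -/
theorem mainK {lam : ℝ} (hlam0 : 0 < lam) (hlam : lam ≤ 4 / 5) (hE : ErrK lam) (θ : ℝ) (hθ : 1 / lam < θ) (T : ℕ) : ∃ Δ₀ : ℕ, ∀ a b c d : ℤ, Admissible a b c d →
    Int.gcd a b = 1 → Int.gcd b c = 1 → Int.gcd c a = 1 → ∀ Δ : ℕ,
    Δ = max (a * b).natAbs (max (b * c).natAbs (c * a).natAbs) → Δ₀ ≤ Δ →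
    (Int.gcd d (a * b * c) : ℝ) ≤ Real.log Δ ^ T → Sol6 θ Δ a b c d := by
  obtain ⟨c₀, h0⟩ := fixedK hlam0 hlam hE θ hθ T
  refine ⟨c₀, fun a b c d hadm h1 h2 h3 Δ hΔ hΔ0 hg => ?_⟩
  refine sol_all7 (T := T) (fun a1 a2 a3 d' hC hA => h0 Δ a1 a2 a3 hΔ0 d' hC hA) hadm ?_
  have e1 : (a * b).natAbs = a.natAbs * b.natAbs := Int.natAbs_mul _ _
  have e2 : (b * c).natAbs = b.natAbs * c.natAbs := Int.natAbs_mul _ _
  have e3 : (c * a).natAbs = c.natAbs * a.natAbs := Int.natAbs_mul _ _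
  rw [e1, e2, e3] at hΔ
  refine ⟨Int.natAbs_pos.2 hadm.a_ne, Int.natAbs_pos.2 hadm.b_ne, Int.natAbs_pos.2 hadm.c_ne, by omega, by omega,
    by omega, by omega, h1, h2, h3, ?_⟩
  have e4 : Nat.gcd d.natAbs (a.natAbs * b.natAbs * c.natAbs) = Int.gcd d (a * b * c) := by
    rw [Int.gcd_def, Int.natAbs_mul, Int.natAbs_mul]
  rw [e4]
  exact hg


end Pool.Agent.H579.Bk
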