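import Pool.Graph.R_seed8.Y883.GJ.Stm3
import Pool.Graph.R_seed8.Y258.GJ.Tpw2
import Pool.Graph.R_seed8.Y898.GJ.TernB
import Pool.Graph.R_seed8.Y949.GJ.Err7

set_option autoImplicit false

/-!
Ternary linear equations with large pairwise coprime coefficients, moduli up to the power `κ < 4 / 5` of the
length. The structures are those of `Y883/GJ/Stm3` with a general exponent in place of `1 / 2 - ρ`.
-/

namespace Pool.Agent.H579.Bk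

open Finset
open Pool.Agent.H807R2.Dav (ee)
open Pool.Agent.Y883.GJ

/-- the structure of the functions at one scale -/
structure StrK (κ : ℝ) (A C C₃ P : ℕ) (G : ℕ → ℂ) : Prop where
  bd : ∀ n ∈ Icc 1 P, ‖G n‖ ≤ 2 * Real.log P * (n.divisors.card : ℝ)
  nc : ∀ q : ℕ, 1 ≤ q → q ≤ P → ∑ n ∈ (Icc 1 P).filter (fun n => ¬ n.Coprime q), ‖G n‖ ≤ P / Real.log P ^ A
  maj : ∀ (q : ℕ) [NeZero q], (q : ℝ) ≤ (P : ℝ) ^ κ →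
    ∃ B : Finset (DirichletCharacter ℂ q), (B.card : ℝ) ≤ Real.log P ^ C₃ ∧
      ∀ η : ℝ, |η| ≤ Real.log P ^ C / P → ∀ S : Finset (DirichletCharacter ℂ q), Disjoint S B →
        ∑ χ ∈ S, ‖cs q P G η χ‖ ^ 2 ≤ (P : ℝ) ^ 2 / Real.log P ^ A

/-- the minor arcs at one scale -/
def MnrK (κ : ℝ) (A C P : ℕ) (G : ℕ → ℂ) : Prop :=
  ∀ (q : ℕ) [NeZero q], (q : ℝ) ≤ (P : ℝ) ^ κ → ∀ (k : ℕ) (h : ℤ) (β : ℝ),
    Real.log P ^ C ≤ k → (q : ℝ) * k * Real.log P ^ C ≤ P → IsCoprime h (k : ℤ) →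
    |q * β - h / k| ≤ 1 / (k : ℝ) ^ 2 →
    ∑ χ : DirichletCharacter ℂ q, ‖cs q P G β χ‖ ^ 2 ≤ (P : ℝ) ^ 2 / Real.log P ^ A

/-- the sizes -/
structure ParK (κ : ℝ) (N T : ℕ) (c1 c2 c3 d : ℤ) (P1 P2 P3 : ℕ) : Prop where
  n1 : c1 ≠ 0
  n2 : c2 ≠ 0
  n3 : c3 ≠ 0
  u1 : c1.natAbs * P1 ≤ N
  u2 : c2.natAbs * P2 ≤ N
  u3 : c3.natAbs * P3 ≤ N
  v1 : N < 2 * (c1.natAbs * P1)
  v2 : N < 2 * (c2.natAbs * P2)
  v3 : N < 2 * (c3.natAbs * P3)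
  hd : 3 * |d| ≤ N
  q1 : ((c2.natAbs * c3.natAbs : ℕ) : ℝ) ≤ (P1 : ℝ) ^ κ
  q2 : ((c1.natAbs * c3.natAbs : ℕ) : ℝ) ≤ (P2 : ℝ) ^ κ
  q3 : ((c1.natAbs * c2.natAbs : ℕ) : ℝ) ≤ (P3 : ℝ) ^ κ
  g12 : IsCoprime c1 c2
  g13 : IsCoprime c1 c3
  g23 : IsCoprime c2 c3
  gd : ((Nat.gcd d.natAbs (c1.natAbs * c2.natAbs * c3.natAbs) : ℕ) : ℝ) ≤ Real.log N ^ T

lemma StrK.mono {κ : ℝ} {A A' C C₃ P : ℕ} {G : ℕ → ℂ} (h : StrK κ A C C₃ P G) (hA : A' ≤ A)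
    (hl : 1 ≤ Real.log P) : StrK κ A' C C₃ P G where
  bd := h.bd
  nc := fun q h1 h2 => (h.nc q h1 h2).trans
    (div_le_div_of_nonneg_left (by positivity) (by positivity) (pow_le_pow_right₀ hl hA))
  maj := fun q _ hq => by
    obtain ⟨B, hB1, hB2⟩ := h.maj q hq
    exact ⟨B, hB1, fun η hη S hS => (hB2 η hη S hS).trans
      (div_le_div_of_nonneg_left (by positivity) (by positivity) (pow_le_pow_right₀ hl hA))⟩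

lemma ParK.swap {κ : ℝ} {N T : ℕ} {c1 c2 c3 d : ℤ} {P1 P2 P3 : ℕ} (h : ParK κ N T c1 c2 c3 d P1 P2 P3) :
    ParK κ N T c2 c1 c3 d P2 P1 P3 :=
  ⟨h.n2, h.n1, h.n3, h.u2, h.u1, h.u3, h.v2, h.v1, h.v3, h.hd, h.q2, h.q1, by rw [mul_comm]; exact h.q3,
    h.g12.symm, h.g23, h.g13, by
      rw [show c2.natAbs * c1.natAbs * c3.natAbs = c1.natAbs * c2.natAbs * c3.natAbs by ring]; exact h.gd⟩

lemma ParK.rot {κ : ℝ} {N T : ℕ} {c1 c2 c3 d : ℤ} {P1 P2 P3 : ℕ} (h : ParK κ N T c1 c2 c3 d P1 P2 P3) :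
    ParK κ N T c2 c3 c1 d P2 P3 P1 :=
  ⟨h.n2, h.n3, h.n1, h.u2, h.u3, h.u1, h.v2, h.v3, h.v1, h.hd, by rw [mul_comm]; exact h.q2,
    by rw [mul_comm]; exact h.q3, h.q1, h.g23, h.g12.symm, h.g13.symm, by
      rw [show c2.natAbs * c3.natAbs * c1.natAbs = c1.natAbs * c2.natAbs * c3.natAbs by ring]; exact h.gd⟩

lemma ParK.pos1 {κ : ℝ} {N T : ℕ} {c1 c2 c3 d : ℤ} {P1 P2 P3 : ℕ} (h : ParK κ N T c1 c2 c3 d P1 P2 P3) : 1 ≤ P1 := by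
  rcases Nat.eq_zero_or_pos P1 with h0 | h0
  · have := h.v1
    rw [h0] at this
    simp at this
  · exact h0

lemma ParK.le1 {κ : ℝ} {N T : ℕ} {c1 c2 c3 d : ℤ} {P1 P2 P3 : ℕ} (h : ParK κ N T c1 c2 c3 d P1 P2 P3) : P1 ≤ N :=
  (Nat.le_mul_of_pos_left _ (Int.natAbs_pos.2 h.n1)).trans h.u1

/-- the lengths are not short -/
lemma ParK.five {κ : ℝ} (hκ0 : 0 < κ) (hκ : κ ≤ 4 / 5) {N T : ℕ} {c1 c2 c3 d : ℤ} {P1 P2 P3 : ℕ}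
    (h : ParK κ N T c1 c2 c3 d P1 P2 P3) : (N : ℝ) ≤ 32 * (P1 : ℝ) ^ 5 := by
  have hP1 := h.pos1
  have hP2 := h.swap.pos1
  have hP2N := h.swap.le1
  have ha3 : 1 ≤ c3.natAbs := Int.natAbs_pos.2 h.n3
  have hP2r : (1 : ℝ) ≤ P2 := by exact_mod_cast hP2
  have hNr : (0 : ℝ) < N := by
    have : 1 ≤ N := hP2.trans hP2N
    exact_mod_cast this
  have k1 : (c1.natAbs : ℝ) ≤ (N : ℝ) ^ (4 / 5 : ℝ) := by
    calc (c1.natAbs : ℝ) ≤ ((c1.natAbs * c3.natAbs : ℕ) : ℝ) := by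
          exact_mod_cast Nat.le_mul_of_pos_right _ ha3
      _ ≤ (P2 : ℝ) ^ κ := h.q2
      _ ≤ (P2 : ℝ) ^ (4 / 5 : ℝ) := Real.rpow_le_rpow_of_exponent_le hP2r hκ
      _ ≤ (N : ℝ) ^ (4 / 5 : ℝ) := Real.rpow_le_rpow (by positivity) (by exact_mod_cast hP2N) (by norm_num)
  have k2 : (N : ℝ) < 2 * (c1.natAbs * P1) := by exact_mod_cast h.v1
  have k3 : (N : ℝ) ^ (1 / 5 : ℝ) ≤ 2 * P1 := by
    have e : (N : ℝ) ^ (1 / 5 : ℝ) * (N : ℝ) ^ (4 / 5 : ℝ) = N := by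
      rw [← Real.rpow_add hNr]
      norm_num
    have k4 : (N : ℝ) ^ (1 / 5 : ℝ) * (N : ℝ) ^ (4 / 5 : ℝ) ≤ (2 * P1) * (N : ℝ) ^ (4 / 5 : ℝ) := by
      rw [e]
      have : 2 * ((c1.natAbs : ℝ) * P1) ≤ 2 * ((N : ℝ) ^ (4 / 5 : ℝ) * P1) := by
        gcongr
      linarith
    exact le_of_mul_le_mul_right k4 (by positivity)
  have k5 : ((N : ℝ) ^ (1 / 5 : ℝ)) ^ 5 ≤ (2 * (P1 : ℝ)) ^ 5 := pow_le_pow_left₀ (by positivity) k3 5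
  have k6 : ((N : ℝ) ^ (1 / 5 : ℝ)) ^ 5 = N := by
    rw [← Real.rpow_natCast, ← Real.rpow_mul hNr.le]
    norm_num
  rw [k6] at k5
  calc (N : ℝ) ≤ (2 * (P1 : ℝ)) ^ 5 := k5
    _ = _ := by ring

lemma log32 : Real.log 32 ≤ 4 := by
  have h : (32 : ℝ) = 2 ^ 5 := by norm_num
  rw [h, Real.log_pow]
  have := Real.log_two_lt_d9
  push_cast
  linarith

lemma log_of_five {N P : ℕ} (hN : 1 ≤ N) (hP : 1 ≤ P) (h : (N : ℝ) ≤ 32 * (P : ℝ) ^ 5) (hL : 24 ≤ Real.log N) :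
    Real.log N ≤ 6 * Real.log P := by
  have hP0 : (0 : ℝ) < P := by exact_mod_cast (show 0 < P by omega)
  have hN0 : (0 : ℝ) < N := by exact_mod_cast (show 0 < N by omega)
  have h1 : Real.log N ≤ Real.log (32 * (P : ℝ) ^ 5) := Real.log_le_log hN0 h
  rw [Real.log_mul (by norm_num) (by positivity), Real.log_pow] at h1
  have h2 := log32
  push_cast at h1
  linarith

/-- the product of the coefficients -/
lemma ParK.prod {κ : ℝ} (hκ0 : 0 < κ) (hκ : κ ≤ 4 / 5) {N T : ℕ} {c1 c2 c3 d : ℤ} {P1 P2 P3 : ℕ}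
    (h : ParK κ N T c1 c2 c3 d P1 P2 P3) :
    ((c1.natAbs * c2.natAbs * c3.natAbs : ℕ) : ℝ) ≤ 2 * (N : ℝ) ^ (24 / 25 : ℝ) := by
  have hP1 := h.pos1
  have hP1r : (1 : ℝ) ≤ P1 := by exact_mod_cast hP1
  have hP10 : (0 : ℝ) < P1 := by linarith
  have h5 := h.five hκ0 hκ
  have hN1 : 1 ≤ N := hP1.trans h.le1
  have hNr : (0 : ℝ) < N := by exact_mod_cast hN1
  have k1 : ((c2.natAbs * c3.natAbs : ℕ) : ℝ) ≤ (P1 : ℝ) ^ (4 / 5 : ℝ) :=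
    h.q1.trans (Real.rpow_le_rpow_of_exponent_le hP1r hκ)
  have k2 : (P1 : ℝ) * ((c1.natAbs * c2.natAbs * c3.natAbs : ℕ) : ℝ) ≤ N * (P1 : ℝ) ^ (4 / 5 : ℝ) := by
    have e : (P1 : ℝ) * ((c1.natAbs * c2.natAbs * c3.natAbs : ℕ) : ℝ) =
        ((c1.natAbs * P1 : ℕ) : ℝ) * ((c2.natAbs * c3.natAbs : ℕ) : ℝ) := by push_cast; ring
    rw [e]
    exact mul_le_mul (by exact_mod_cast h.u1) k1 (Nat.cast_nonneg _) hNr.le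
  -- `P1 ^ (1/5) * Q ≤ N`
  have k3 : (P1 : ℝ) ^ (1 / 5 : ℝ) * ((c1.natAbs * c2.natAbs * c3.natAbs : ℕ) : ℝ) ≤ N := by
    have e : (P1 : ℝ) = (P1 : ℝ) ^ (1 / 5 : ℝ) * (P1 : ℝ) ^ (4 / 5 : ℝ) := by
      rw [← Real.rpow_add hP10]
      norm_num
    have k4 : ((P1 : ℝ) ^ (1 / 5 : ℝ) * ((c1.natAbs * c2.natAbs * c3.natAbs : ℕ) : ℝ)) * (P1 : ℝ) ^ (4 / 5 : ℝ) ≤
        N * (P1 : ℝ) ^ (4 / 5 : ℝ) := by
      calc _ = ((P1 : ℝ) ^ (1 / 5 : ℝ) * (P1 : ℝ) ^ (4 / 5 : ℝ)) *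
            ((c1.natAbs * c2.natAbs * c3.natAbs : ℕ) : ℝ) := by ring
        _ ≤ _ := by rw [← e]; exact k2
    exact le_of_mul_le_mul_right k4 (by positivity)
  have k5 : (N : ℝ) ^ (1 / 25 : ℝ) ≤ 2 * (P1 : ℝ) ^ (1 / 5 : ℝ) := by
    calc (N : ℝ) ^ (1 / 25 : ℝ) ≤ (32 * (P1 : ℝ) ^ 5) ^ (1 / 25 : ℝ) :=
          Real.rpow_le_rpow hNr.le h5 (by norm_num)
      _ = 32 ^ (1 / 25 : ℝ) * (P1 : ℝ) ^ (1 / 5 : ℝ) := by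
          rw [Real.mul_rpow (by norm_num) (by positivity), ← Real.rpow_natCast, ← Real.rpow_mul hP10.le]
          norm_num
      _ ≤ 2 * (P1 : ℝ) ^ (1 / 5 : ℝ) := by
          apply mul_le_mul_of_nonneg_right _ (by positivity)
          have e : (32 : ℝ) = 2 ^ (5 : ℝ) := by
            rw [show (5 : ℝ) = ((5 : ℕ) : ℝ) by norm_num, Real.rpow_natCast]
            norm_num
          rw [e, ← Real.rpow_mul (by norm_num)]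
          calc (2 : ℝ) ^ (5 * (1 / 25) : ℝ) ≤ 2 ^ (1 : ℝ) :=
                Real.rpow_le_rpow_of_exponent_le (by norm_num) (by norm_num)
            _ = 2 := Real.rpow_one _
  have e : (N : ℝ) = (N : ℝ) ^ (1 / 25 : ℝ) * (N : ℝ) ^ (24 / 25 : ℝ) := by
    rw [← Real.rpow_add hNr]
    norm_num
  have k6 : (N : ℝ) ^ (1 / 25 : ℝ) * ((c1.natAbs * c2.natAbs * c3.natAbs : ℕ) : ℝ) ≤
      (N : ℝ) ^ (1 / 25 : ℝ) * (2 * (N : ℝ) ^ (24 / 25 : ℝ)) := by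
    calc (N : ℝ) ^ (1 / 25 : ℝ) * ((c1.natAbs * c2.natAbs * c3.natAbs : ℕ) : ℝ) ≤
          2 * (P1 : ℝ) ^ (1 / 5 : ℝ) * ((c1.natAbs * c2.natAbs * c3.natAbs : ℕ) : ℝ) :=
          mul_le_mul_of_nonneg_right k5 (Nat.cast_nonneg _)
      _ = 2 * ((P1 : ℝ) ^ (1 / 5 : ℝ) * ((c1.natAbs * c2.natAbs * c3.natAbs : ℕ) : ℝ)) := by ring
      _ ≤ 2 * N := by linarith
      _ = (N : ℝ) ^ (1 / 25 : ℝ) * (2 * (N : ℝ) ^ (24 / 25 : ℝ)) := by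
          rw [mul_left_comm, ← e]
  exact le_of_mul_le_mul_left k6 (by positivity)

end Pool.Agent.H579.Bk
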